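import Pool.Agent.Helper28.WK.StA

/-!
# Project WK (MP_3c9520_nt), module KS: step of the induction for the kernel of `ev`
-/

set_option autoImplicit false

open Pool.Agent.Helper14.CV Pool.Agent.Helper28.WK

namespace Pool.Agent.Helper76.WK

/-- linear combination of four potentials -/
private noncomputable def cb (a b c d : ℂ) (x y z w : ℤ → ℤ → ℂ) : ℤ → ℤ → ℂ := a • x + b • y + c • z + d • w

private lemma cb_act {α β γ δ : ℤ} (a b c d : ℂ) {x y z w x' y' z' w' : ℤ → ℤ → ℂ}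
    (h1 : EqC (act α β γ δ x) x') (h2 : EqC (act α β γ δ y) y') (h3 : EqC (act α β γ δ z) z')
    (h4 : EqC (act α β γ δ w) w') :
    EqC (act α β γ δ (cb a b c d x y z w)) (cb a b c d x' y' z' w') :=
  (((h1.smul a).add (h2.smul b)).add (h3.smul c)).add (h4.smul d)

private lemma cb_sym {n : ℕ} (a b c d : ℂ) {x y z w : ℤ → ℤ → ℂ} (h1 : Sym 0 n x) (h2 : Sym 0 n y) (h3 : Sym 0 n z)
    (h4 : Sym 0 n w) : Sym 0 n (cb a b c d x y z w) :=
  (((h1.smul a).add (h2.smul b)).add (h3.smul c)).add (h4.smul d)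

private lemma sym_sub {n : ℕ} {x y : ℤ → ℤ → ℂ} (h1 : Sym 0 n x) (h2 : Sym 0 n y) : Sym 0 n (x - y) := by
  rw [sub_eq_add_neg]
  exact h1.add h2.neg

private lemma ev_sub' (x y : ℤ → ℤ → ℂ) (i j : ℕ) : ev 1 (x - y) i j = ev 1 x i j - ev 1 y i j := by
  rw [sub_eq_add_neg, ev_add, ev_neg]
  ring

/-- `W' W' = 1` -/
private lemma WW (k : ℕ) {x : ℤ → ℤ → ℂ} (hx : Homog x) :
    EqC (act 0 (-1) (2 ^ k) 0 (act 0 (-1) (2 ^ k) 0 x)) x := by
  have h := hx.scale (a := 1) (b := 0) (c := 0) (d := 1) (-(2 : ℤ) ^ k)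
    (neg_ne_zero.2 (pow_ne_zero _ two_ne_zero)) (by norm_num)
  rw [act_one] at h
  have e : act 0 (-1) (2 ^ k) 0 (act 0 (-1) (2 ^ k) 0 x) =
      act (-(2 : ℤ) ^ k * 1) (-(2 : ℤ) ^ k * 0) (-(2 : ℤ) ^ k * 0) (-(2 : ℤ) ^ k * 1) x := by
    rw [act_act]
    congr 1 <;> ring
  rw [e]
  exact h

/-- `* W' = W' *` -/
private lemma SW (k : ℕ) {x : ℤ → ℤ → ℂ} (hx : Homog x) :
    EqC (act (-1) 0 0 1 (act 0 (-1) (2 ^ k) 0 x)) (act 0 (-1) (2 ^ k) 0 (act (-1) 0 0 1 x)) := by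
  have h := hx.scale (a := 0) (b := 1) (c := 2 ^ k) (d := 0) (-1) (by norm_num)
    (by
      have : (2 : ℤ) ^ k ≠ 0 := pow_ne_zero _ two_ne_zero
      intro h
      apply this
      linarith)
  have e1 : act (-1) 0 0 1 (act 0 (-1) (2 ^ k) 0 x) = act (-1 * 0) (-1 * 1) (-1 * 2 ^ k) (-1 * 0) x := by
    rw [act_act]
    congr 1 <;> ring
  have e2 : act 0 (-1) (2 ^ k) 0 (act (-1) 0 0 1 x) = act 0 1 (2 ^ k) 0 x := by
    rw [act_act]
    congr 1 <;> ring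
  rw [e1, e2]
  exact h

theorem hKs : StKs := by
  intro hNrm hEv hLvl hCom hNex hEvU m G hm hG hW hS hev
  have hm2 : 2 ≤ m := by omega
  have hm1 : 2 ≤ m - 1 := by omega
  have hpow : (2 : ℤ) ^ m ≠ 0 := pow_ne_zero _ two_ne_zero
  have hpow' : (2 : ℤ) ^ (m - 1) ≠ 0 := pow_ne_zero _ two_ne_zero
  have dt : (2 : ℤ) * 2 - 1 * 0 ≠ 0 := by norm_num
  have ds : (1 : ℤ) * 1 - 0 * 2 ^ (m - 1) ≠ 0 := by norm_num
  have dW : (0 : ℤ) * 0 - (-1) * 2 ^ m ≠ 0 := by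
    intro h
    apply hpow
    linarith
  have dW' : (0 : ℤ) * 0 - (-1) * 2 ^ (m - 1) ≠ 0 := by
    intro h
    apply hpow'
    linarith
  have dS : (-1 : ℤ) * 1 - 0 * 0 ≠ 0 := by norm_num
  -- the four potentials
  set y : ℤ → ℤ → ℂ := act 2 1 0 2 G with hy
  set z : ℤ → ℤ → ℂ := act 1 0 (2 ^ (m - 1)) 1 G with hz
  set w : ℤ → ℤ → ℂ := act 1 0 (2 ^ (m - 1)) 1 y with hw
  have sy : Sym 0 m y := (hNrm m G hm2 hG).2.1
  have sz : Sym 0 m z := (hNrm m G hm2 hG).2.2.1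
  have sw : Sym 0 m w := (hNrm m y hm2 sy).2.2.1
  obtain ⟨c1, c2, c3, c4, c5, c6, c7, c8, c9, c10⟩ := hCom m G hm hG
  obtain ⟨b1, b2, b3, b4, b5, b6, b7, b8, b9, b10⟩ := hCom m y hm sy
  -- `t`
  have ty : EqC (act 2 1 0 2 y) G := c1
  have tz : EqC (act 2 1 0 2 z) w := c5
  have tw : EqC (act 2 1 0 2 w) z := b5.trans (c1.act ds)
  -- `σ`
  have σz : EqC (act 1 0 (2 ^ (m - 1)) 1 z) G := c2
  have σw : EqC (act 1 0 (2 ^ (m - 1)) 1 w) y := b2
  -- `W`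
  have Wy : EqC (act 0 (-1) (2 ^ m) 0 y) (-z) := by
    refine c7.symm.trans ?_
    have := hW.act ds
    rw [act_neg] at this
    exact this
  have Wz : EqC (act 0 (-1) (2 ^ m) 0 z) (-y) := by
    refine c6.symm.trans ?_
    have := hW.act dt
    rw [act_neg] at this
    exact this
  have Ww : EqC (act 0 (-1) (2 ^ m) 0 w) (-w) := by
    refine b6.symm.trans ?_
    have := Wy.act dt
    rw [act_neg] at this
    exact this.trans tz.neg
  -- `*`
  have Sy : EqC (act (-1) 0 0 1 y) y := c8.symm.trans (hS.act dt)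
  have Sz : EqC (act (-1) 0 0 1 z) z := c9.symm.trans (hS.act ds)
  have Sw : EqC (act (-1) 0 0 1 w) w := b9.symm.trans (Sy.act ds)
  -- the four components
  set P := cb (1 / 4) (1 / 4) (1 / 4) (1 / 4) G y z w with hP
  set Q := cb (1 / 4) (1 / 4) (-(1 / 4)) (-(1 / 4)) G y z w with hQ
  set U := cb (1 / 4) (-(1 / 4)) (1 / 4) (-(1 / 4)) G y z w with hU
  set V := cb (1 / 4) (-(1 / 4)) (-(1 / 4)) (1 / 4) G y z w with hV
  have sP : Sym 0 m P := cb_sym _ _ _ _ hG sy sz sw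
  have sQ : Sym 0 m Q := cb_sym _ _ _ _ hG sy sz sw
  have sU : Sym 0 m U := cb_sym _ _ _ _ hG sy sz sw
  have sV : Sym 0 m V := cb_sym _ _ _ _ hG sy sz sw
  have sum : G = P + Q + U + V := by
    funext p q
    simp only [hP, hQ, hU, hV, cb, Pi.add_apply, Pi.smul_apply, smul_eq_mul]
    ring
  have σP : EqC (act 1 0 (2 ^ (m - 1)) 1 P) P := by
    refine (cb_act _ _ _ _ (EqC.refl _) (EqC.refl _) σz σw).trans (EqC.of_eq fun p q _ => ?_)
    simp only [hP, cb, Pi.add_apply, Pi.smul_apply, smul_eq_mul, ← hz, ← hw]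
    ring
  have σU : EqC (act 1 0 (2 ^ (m - 1)) 1 U) U := by
    refine (cb_act _ _ _ _ (EqC.refl _) (EqC.refl _) σz σw).trans (EqC.of_eq fun p q _ => ?_)
    simp only [hU, cb, Pi.add_apply, Pi.smul_apply, smul_eq_mul, ← hz, ← hw]
    ring
  have σV : EqC (act 1 0 (2 ^ (m - 1)) 1 V) (-V) := by
    refine (cb_act _ _ _ _ (EqC.refl _) (EqC.refl _) σz σw).trans (EqC.of_eq fun p q _ => ?_)
    simp only [hV, cb, Pi.add_apply, Pi.smul_apply, smul_eq_mul, Pi.neg_apply, ← hz, ← hw]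
    ring
  have tV : EqC (act 2 1 0 2 V) (-V) := by
    refine (cb_act _ _ _ _ (EqC.refl _) ty tz tw).trans (EqC.of_eq fun p q _ => ?_)
    simp only [hV, cb, Pi.add_apply, Pi.smul_apply, smul_eq_mul, Pi.neg_apply, ← hy]
    ring
  have WP : EqC (act 0 (-1) (2 ^ m) 0 P) (-P) := by
    refine (cb_act _ _ _ _ hW Wy Wz Ww).trans (EqC.of_eq fun p q _ => ?_)
    simp only [hP, cb, Pi.add_apply, Pi.smul_apply, smul_eq_mul, Pi.neg_apply]
    ring
  have WQ : EqC (act 0 (-1) (2 ^ m) 0 Q) (-U) := by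
    refine (cb_act _ _ _ _ hW Wy Wz Ww).trans (EqC.of_eq fun p q _ => ?_)
    simp only [hU, cb, Pi.add_apply, Pi.smul_apply, smul_eq_mul, Pi.neg_apply]
    ring
  have WU : EqC (act 0 (-1) (2 ^ m) 0 U) (-Q) := by
    refine (cb_act _ _ _ _ hW Wy Wz Ww).trans (EqC.of_eq fun p q _ => ?_)
    simp only [hQ, cb, Pi.add_apply, Pi.smul_apply, smul_eq_mul, Pi.neg_apply]
    ring
  have WV : EqC (act 0 (-1) (2 ^ m) 0 V) (-V) := by
    refine (cb_act _ _ _ _ hW Wy Wz Ww).trans (EqC.of_eq fun p q _ => ?_)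
    simp only [hV, cb, Pi.add_apply, Pi.smul_apply, smul_eq_mul, Pi.neg_apply]
    ring
  have SP : EqC (act (-1) 0 0 1 P) P := cb_act _ _ _ _ hS Sy Sz Sw
  have SU : EqC (act (-1) 0 0 1 U) U := cb_act _ _ _ _ hS Sy Sz Sw
  have SV : EqC (act (-1) 0 0 1 V) V := cb_act _ _ _ _ hS Sy Sz Sw
  -- levels
  have lP : Sym 0 (m - 1) P := (hLvl m P hm2 sP).1 σP
  have lU : Sym 0 (m - 1) U := (hLvl m U hm2 sU).1 σU
  have evQ : ∀ i j : ℕ, ev 1 Q i j = ev 1 U i j := by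
    intro i j
    have h1 := (hEv m Q hm2 sQ i j).1
    have h2 := ev_congr 1 WQ i j
    rw [ev_neg, h1] at h2
    exact neg_injective h2
  have V0 : EqC V 0 := by
    refine hNex m (P + (U + U)) V hm (lP.add (lU.add lU)) ⟨sV, tV, σV, WV, SV⟩ (fun i j => ?_)
    have h1 := hev i j
    rw [sum, ev_add, ev_add, ev_add, evQ] at h1
    rw [ev_add, ev_add]
    linear_combination h1
  -- the potential `ω`
  set ω : ℤ → ℤ → ℂ := (1 / 2 : ℂ) • P + U with hω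
  have lω : Sym 0 (m - 1) ω := (lP.smul _).add lU
  have Sω : EqC (act (-1) 0 0 1 ω) ω := (SP.smul (1 / 2 : ℂ)).add SU
  have Wω : EqC (act 0 (-1) (2 ^ m) 0 ω) (-((1 / 2 : ℂ) • P + Q)) := by
    refine ((WP.smul (1 / 2 : ℂ)).add WU).trans (EqC.of_eq fun p q _ => ?_)
    simp only [Pi.add_apply, Pi.smul_apply, smul_eq_mul, Pi.neg_apply]
    ring
  have hGω : EqC G (ω - act 0 (-1) (2 ^ m) 0 ω) := by
    have h1 : EqC (ω - act 0 (-1) (2 ^ m) 0 ω) (ω - -((1 / 2 : ℂ) • P + Q)) := (EqC.refl ω).sub Wω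
    have h2 : EqC G (ω - -((1 / 2 : ℂ) • P + Q)) := by
      have h3 : EqC (P + Q + U + V) (P + Q + U + 0) := (EqC.refl (P + Q + U)).add V0
      rw [← sum] at h3
      refine h3.trans (EqC.of_eq fun p q _ => ?_)
      simp only [hω, Pi.add_apply, Pi.smul_apply, Pi.sub_apply, smul_eq_mul, Pi.neg_apply, Pi.zero_apply]
      ring
    exact h2.trans h1.symm
  set T : ℤ → ℤ → ℂ := act 0 (-1) (2 ^ (m - 1)) 0 ω with hT
  have lT : Sym 0 (m - 1) T := (hNrm (m - 1) ω hm1 lω).1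
  have uT : act 2 0 0 1 T = act 0 (-1) (2 ^ m) 0 ω := by
    rw [hT, act_act]
    have e : (2 : ℤ) ^ (m - 1) * 2 + 0 * 0 = 2 ^ m := by
      rw [← pow_succ, Nat.sub_add_cancel (by omega : 1 ≤ m)]
      ring
    rw [e]
    congr 1 <;> ring
  have WT' : EqC (act 0 (-1) (2 ^ (m - 1)) 0 T) ω := WW (m - 1) lω.1
  have ST : EqC (act (-1) 0 0 1 T) T := (SW (m - 1) lω.1).trans (Sω.act dW')
  have hfin : EqC G ((ω - T) + (act 2 0 0 1 (-T) - (-T))) := by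
    refine hGω.trans (EqC.of_eq fun p q _ => ?_)
    rw [act_neg, uT]
    simp only [Pi.add_apply, Pi.sub_apply, Pi.neg_apply]
    ring
  refine ⟨ω - T, -T, sym_sub lω lT, lT.neg, ?_, ?_, fun i j => ?_, hfin⟩
  · rw [act_sub]
    refine ((EqC.refl (act 0 (-1) (2 ^ (m - 1)) 0 ω)).sub WT').trans (EqC.of_eq fun p q _ => ?_)
    simp only [Pi.sub_apply, Pi.neg_apply, ← hT]
    ring
  · rw [act_sub]
    exact Sω.sub ST
  · have h1 := ev_congr 1 hfin i j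
    have h2 := ev_sub' (act 2 0 0 1 (-T)) (-T) i j
    rw [(hEvU ℂ _ (m - 1) (-T) lT.neg).2 i j, sub_self] at h2
    rw [hev, ev_add, h2, add_zero] at h1
    exact h1.symm

end Pool.Agent.Helper76.WK
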